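import Pool.Agent.Helper87.PG.Stmts
import Pool.Agent.Helper46.TC.HIRR2

/-!
The family of curves in the resolved quotient is irreducible (`MP_39dd1a_ag`, hand-in
`FiniteModels`).
-/

set_option autoImplicit false

namespace Pool.Agent.Helper87.PG

open MvPolynomial Pool.Agent.Helper48.VMRT Pool.Agent.Helper87.VM Pool.Agent.Helper87.TC

/-- There is an involution in the group. -/
theorem hirr2_inv {D : VD} {m : ℕ} (hT : TD D m) : ∃ τ : D.G, τ ≠ 1 ∧ τ * τ = 1 := by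
  have hc := hT.card
  have : Finite D.G := Nat.finite_of_card_ne_zero (by rw [hc]; positivity)
  have : Fact (Nat.Prime 2) := ⟨Nat.prime_two⟩
  obtain ⟨τ, hτ⟩ := exists_prime_orderOf_dvd_card' (G := D.G) 2
    (by rw [hc]; exact dvd_pow_self 2 (Nat.one_le_iff_ne_zero.1 hT.pos))
  refine ⟨τ, ?_, ?_⟩
  · rintro rfl
    rw [orderOf_one] at hτ
    omega
  · rw [← pow_two, ← hτ]
    exact pow_orderOf_eq_one τ

theorem st_HIRR2 (h1 : ST_HTR2) (_h2 : ST_MEM2) (h3 : ST_THR2) (h4 : TC.ST_PAR0)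
    (h5 : TC.ST_COMPE) (h6 : TC.ST_RESD) (h7 : VM.ST_PROD) : ST_HIRR2 := by
  intro D m N E X DX hT hu
  have hD := hT.td.good
  obtain ⟨Ψ₀, hΨ₀⟩ := h4 D hD
  obtain ⟨Q, hQ⟩ := h5 (Option (Fin D.w) × D.ν) N (4 ^ m) D.a E hT.res.hom
  obtain ⟨Ψ, hΨe⟩ : ∃ Ψ : Fin (N + 1) × Fin (4 ^ m * D.a + 1) →
    MvPolynomial (Hirr2K D) ℂ, Ψ = fun i => aeval Ψ₀ (Q i) := ⟨_, rfl⟩
  have hev : ∀ (c : ℂ) (y : Option (Fin D.w) × D.ν → ℂ),
      ev E (c • y) = c ^ 4 ^ m • ev E y := by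
    intro c y
    funext i
    exact hT.res.hom i c y
  have hΨp : ∀ x : Hirr2K D → ℂ, ∀ s t : ℂ,
      pt (ev Ψ x : Coef N (4 ^ m * D.a)) s t = ev E (cev D.a (ev Ψ₀ x) s t) := by
    intro x s t
    rw [← hQ (ev Ψ₀ x) s t]
    have e1 : (ev Ψ x : Coef N (4 ^ m * D.a)) = fun i => eval (ev Ψ₀ x) (Q i) := by
      funext i
      rw [hΨe]
      exact eval_aeval Ψ₀ (Q i) x
    rw [e1]
  have hΨ : ∀ (u : Fin D.w → ℂ) (σ : Fin 4 → ℂ), ∀ z ∈ D.Z, ∀ s t : ℂ,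
      (s * σ 0 + t * σ 1) ^ 4 ^ m •
        pt (ev Ψ (Sum.elim u (Sum.elim σ z)) : Coef N (4 ^ m * D.a)) s t =
      ev E (D.gr (s • ov (σ 0) (σ 0 • u + σ 2 • z) + t • ov (σ 1) (σ 1 • u + σ 3 • z))) := by
    intro u σ z hz s t
    rw [hΨp, ← hev, hΨ₀ u σ z hz s t]
  obtain ⟨i⟩ := hD.ine
  have hpar := hirr2_par D DX Ψ hD (4 ^ m) E hΨ
  -- a general point
  obtain ⟨u, hu⟩ := hu
  obtain ⟨z, hz, hz0⟩ := hD.Zne i
  have hzZ : z ∈ D.Z := Set.mem_iUnion.2 ⟨i, hz⟩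
  obtain ⟨Φ, hΦ⟩ := h3 D m N E X DX hT u hu 1 one_ne_zero
  obtain ⟨hΦ1, -, -, hΦ2⟩ := hΦ z hzZ
  have hx : ∀ s t : ℂ, (s, t) ≠ (0, 0) →
      pt (ev Ψ (Sum.elim u (Sum.elim ![1, 0, 0, 1] z)) :
        Coef N (4 ^ m * D.a)) s t ∉ DX := by
    have e1 : (ev Ψ (Sum.elim u (Sum.elim ![1, 0, 0, 1] z)) : Coef N (4 ^ m * D.a)) =
        fun i => eval z (Φ i) := by
      apply hirr_unique _ _ 1 0 (Or.inl one_ne_zero) (k := 4 ^ m)
      intro s t
      have e2 := hΨ u ![1, 0, 0, 1] z hzZ s t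
      have e3 := hΦ1 s t
      have s0 : (![1, 0, 0, 1] : Fin 4 → ℂ) 0 = 1 := rfl
      have s1 : (![1, 0, 0, 1] : Fin 4 → ℂ) 1 = 0 := rfl
      have s2 : (![1, 0, 0, 1] : Fin 4 → ℂ) 2 = 0 := rfl
      have s3 : (![1, 0, 0, 1] : Fin 4 → ℂ) 3 = 1 := rfl
      rw [s0, s1, s2, s3, one_smul, zero_smul, zero_smul, one_smul, add_zero, zero_add] at e2
      rw [e2]
      have e4 : s * 1 + t * 0 = s := by ring
      rw [e4, e3, one_smul]
    rw [e1]
    obtain ⟨p, q, -, -, h⟩ := hΦ2 hz0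
    exact h
  have hDXne : DX.Nonempty := by
    obtain ⟨τ, hτ1, hτ2⟩ := hirr2_inv hT.td
    refine ⟨_, hT.res.on 0 ⟨τ, hτ1, hτ2, Or.inl ?_⟩⟩
    rw [map_zero]
  have hcl := (h6 N (4 ^ m * D.a) DX hT.res.dcl hT.res.dcone hDXne).1
  have key : H2 D m N E DX = ev Ψ '' hirr2O D DX Ψ i := by
    apply Set.Subset.antisymm
    · rintro c ⟨p, q, hp, hc, hs⟩
      obtain ⟨j, hj⟩ := Set.mem_iUnion.1 hp.mem
      obtain ⟨h, hg⟩ := hD.trans j i
      obtain ⟨lam, hl0, hl1, hl2⟩ := h1 D m N E X DX hT h p q hp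
      rw [hpar i c]
      refine ⟨lam • oext D.ρ h p, lam • oext D.ρ h q, hl1, ?_, hl2 c hc, hs⟩
      have h8 : (fun j => (lam • oext D.ρ h q) none * (lam • oext D.ρ h p) (some j) -
          (lam • oext D.ρ h p) none * (lam • oext D.ρ h q) (some j)) =
          lam ^ 2 • D.ρ h (fun i => q none * p (some i) - p none * q (some i)) := by
        have h9 : (fun i => q none * p (some i) - p none * q (some i)) =
            q none • (fun i => p (some i)) - p none • (fun i => q (some i)) := rfl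
        rw [h9, map_sub, map_smul, map_smul]
        funext j
        change (lam * q none) * (lam * D.ρ h (fun i => p (some i)) j) -
          (lam * p none) * (lam * D.ρ h (fun i => q (some i)) j) =
          lam ^ 2 * (q none * D.ρ h (fun i => p (some i)) j -
            p none * D.ρ h (fun i => q (some i)) j)
        ring
      rw [h8]
      apply hD.Zcone
      rw [← hg]
      exact ⟨_, hj, rfl⟩
    · intro c hc
      rw [hpar i c] at hc
      obtain ⟨p, q, hp, -, hc, hs⟩ := hc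
      exact ⟨p, q, hp, hc, hs⟩
  rw [key]
  exact prime_image Ψ (hirr2_primeO D DX Ψ h7 hD i hcl u z hz hz0 hx)

end Pool.Agent.Helper87.PG
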