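import Pool.Agent.Helper87.PG.Stmts
import Pool.Agent.Helper87.TC.THR2

/-!
Module THR2 of `MP_39dd1a_ag` (hand-in `FiniteModels`): existence of members through the points
over a vector in general position.
-/

set_option autoImplicit false

namespace Pool.Agent.Helper87.PG

open MvPolynomial Pool.Agent.Helper48.VMRT Pool.Agent.Helper87.VM Pool.Agent.Helper87.TC

theorem st_THR2 (hMEM0 : TC.ST_MEM0) (hPAR0 : TC.ST_PAR0) (hCOMPE : TC.ST_COMPE)
    (hLINE : ST_LINE) : ST_THR2 := by
  intro D m N E X DX hTR u hu c₀ hc₀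
  have hD := hTR.td.good
  obtain ⟨Ψ, hΨ⟩ := hPAR0 D hD
  obtain ⟨Q, hQ⟩ := hCOMPE _ N (4 ^ m) D.a E hTR.res.hom
  set σ : Fin 4 → ℂ := ![1, 0, 0, 1] with hσ
  have hcv : ∀ z ∈ D.Z, ∀ s t : ℂ,
      s • cev D.a (ev Ψ (Sum.elim u (Sum.elim σ z))) s t =
        D.gr (s • ov 1 u + t • ov 0 z) := by
    intro z hz s t
    have h1 := hΨ u σ z hz s t
    have e0 : σ 0 = 1 := rfl
    have e1 : σ 1 = 0 := rfl
    have e2 : σ 2 = 0 := rfl
    have e3 : σ 3 = 1 := rfl
    rw [e0, e1, e2, e3, mul_one, mul_zero, add_zero, one_smul, zero_smul, zero_smul, one_smul,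
      add_zero, zero_add] at h1
    exact h1
  let Ψ' : (Option (Fin D.w) × D.ν) × Fin (D.a + 1) → MvPolynomial (Fin D.w) ℂ := fun o =>
    C c₀ * aeval (Sum.elim (fun i => C (u i)) (Sum.elim (fun i => C (σ i)) MvPolynomial.X)) (Ψ o)
  have hΨ' : ∀ z, ev Ψ' z = c₀ • ev Ψ (Sum.elim u (Sum.elim σ z)) := by
    intro z
    funext o
    change eval z (C c₀ * aeval (Sum.elim (fun i => C (u i)) (Sum.elim (fun i => C (σ i)) MvPolynomial.X))
      (Ψ o)) = c₀ * eval (Sum.elim u (Sum.elim σ z)) (Ψ o)
    have h1 : ev (Sum.elim (fun i => C (u i)) (Sum.elim (fun i => C (σ i)) MvPolynomial.X)) z =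
        Sum.elim u (Sum.elim σ z) := by
      funext i
      rcases i with i | i | i
      · exact eval_C _
      · exact eval_C _
      · exact eval_X _
    rw [map_mul, eval_C, eval_aeval, h1]
  let Φ : Fin (N + 1) × Fin (4 ^ m * D.a + 1) → MvPolynomial (Fin D.w) ℂ := fun i =>
    aeval Ψ' (Q i)
  have hpt : ∀ z s t, pt (fun i => eval z (Φ i) : Coef N (4 ^ m * D.a)) s t =
      ev E (c₀ • cev D.a (ev Ψ (Sum.elim u (Sum.elim σ z))) s t) := by
    intro z s t
    have h1 : (fun i => eval z (Φ i) : Coef N (4 ^ m * D.a)) =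
        fun i => eval (ev Ψ' z) (Q i) := by
      funext i
      exact eval_aeval _ _ _
    rw [h1, hQ, hΨ', thr2_cev_smul]
  have hp0 : (1 : ℂ) ≠ 0 ∨ (0 : ℂ) ≠ 0 := Or.inl one_ne_zero
  refine ⟨Φ, fun z hz => ⟨?_, ?_, ?_, ?_⟩⟩
  · intro s t
    rw [hpt, ← thr2_smul hTR.res.hom, smul_comm, hcv z hz]
  · rw [hpt]
    have h1 := hcv z hz 1 0
    rw [one_smul, one_smul, zero_smul, add_zero] at h1
    rw [h1]
  · intro a s t
    rw [hpt, hpt]
    have haz : a • z ∈ D.Z := by
      obtain ⟨i, hi⟩ := Set.mem_iUnion.1 hz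
      exact Set.mem_iUnion.2 ⟨i, hD.Zcone i a z hi⟩
    congr 2
    funext i
    revert s t
    refine mem_ext hp0 (thr2_cont _ _ i) ?_ ?_
    · unfold cev
      fun_prop
    · intro s t hs
      have hs' : s ≠ 0 := by
        intro h; apply hs; rw [h]; ring
      have h1 := hcv (a • z) haz s t
      have h2 := hcv z hz s (a * t)
      have h3 : t • ov (0 : ℂ) (a • z) = (a * t) • ov 0 z := by
        rw [← ov_smul, ← ov_smul, mul_zero, mul_zero, smul_smul, mul_comm t a]
      rw [h3, ← h2] at h1
      exact congrFun (smul_right_injective _ hs' h1) i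
  · intro hz0
    have ha : D.a ≠ 0 := by
      have := hD.fd.two_le
      omega
    obtain ⟨lam, hlam⟩ := IsAlgClosed.exists_pow_nat_eq c₀ (Nat.pos_of_ne_zero ha)
    have hlam0 : lam ≠ 0 := by
      rintro rfl
      rw [zero_pow ha] at hlam
      exact hc₀ hlam.symm
    have hind : LinearIndependent ℂ ![ov 1 u, ov 0 z] := by
      rw [LinearIndependent.pair_iff]
      intro s t hst
      have h1 : s * 1 + t * 0 = 0 := congrFun hst none
      have hs : s = 0 := by linear_combination h1
      refine ⟨hs, ?_⟩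
      obtain ⟨i, hi⟩ := Function.ne_iff.1 hz0
      have h2 : s * u i + t * z i = 0 := congrFun hst (some i)
      rw [hs, zero_mul, zero_add] at h2
      exact (mul_eq_zero.1 h2).resolve_right hi
    have hLP : ∀ l : ℂ, l ≠ 0 → LP D (l • ov 1 u) (l • ov 0 z) := by
      intro l hl
      refine ⟨?_, ?_, ?_⟩
      · rw [LinearIndependent.pair_iff]
        intro s t hst
        have h1 : (s * l) • ov 1 u + (t * l) • ov 0 z = 0 := by
          rw [← hst, smul_smul, smul_smul]
        have h2 := LinearIndependent.pair_iff.1 hind _ _ h1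
        exact ⟨(mul_eq_zero.1 h2.1).resolve_right hl, (mul_eq_zero.1 h2.2).resolve_right hl⟩
      · left
        rw [Pi.smul_apply, ov_none, smul_eq_mul, mul_one]
        exact hl
      · have h1 : (fun i => (l • ov 0 z) none * (l • ov 1 u) (some i) -
            (l • ov 1 u) none * (l • ov 0 z) (some i)) = (-(l * l)) • z := by
          funext i
          simp only [Pi.smul_apply, smul_eq_mul, ov_none, ov_some]
          ring
        rw [h1]
        obtain ⟨i, hi⟩ := Set.mem_iUnion.1 hz
        exact Set.mem_iUnion.2 ⟨i, hD.Zcone i _ z hi⟩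
    refine ⟨lam • ov 1 u, lam • ov 0 z, hLP lam hlam0, ?_, ?_⟩
    · intro s t
      have h1 : s * (lam • ov 1 u : Option (Fin D.w) → ℂ) none +
          t * (lam • ov 0 z : Option (Fin D.w) → ℂ) none = lam * s := by
        simp only [Pi.smul_apply, smul_eq_mul, ov_none]
        ring
      have h2 : s • (lam • ov 1 u) + t • (lam • ov 0 z) =
          lam • (s • ov 1 u + t • ov 0 z) := by
        rw [smul_add, smul_comm s lam, smul_comm t lam]
      rw [h1, h2, VD.gr_smul D hD.fd.hom, hpt, mul_pow, mul_smul,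
        ← thr2_smul hTR.res.hom s, smul_comm s c₀, hcv z hz, thr2_smul hTR.res.hom c₀,
        thr2_smul hTR.res.hom (lam ^ (D.a + 1)), smul_smul, ← hlam]
      congr 1
      ring
    · intro s t hst
      have hone := hLP 1 one_ne_zero
      rw [one_smul, one_smul] at hone
      obtain ⟨y, η, hy, -, hyη, hyY, hηF⟩ := hMEM0 D hD _ _ hone
      have hys : ∀ s t : ℂ, s • hevv D.a y s t = D.gr (s • ov 1 u + t • ov 0 z) := by
        intro s t
        have h1 := hηF s t
        rw [ov_none, ov_none, mul_one, mul_zero, add_zero] at h1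
        rw [hyη, ← seg_smul_right, h1]
        rfl
      have hcy : ∀ s t : ℂ, cev D.a (ev Ψ (Sum.elim u (Sum.elim σ z))) s t =
          hevv D.a y s t := by
        intro s t
        funext i
        revert s t
        refine mem_ext hp0 (thr2_cont _ _ i) (mem_cont_hev D.a (y i)) ?_
        intro s t hs
        have hs' : s ≠ 0 := by
          intro h; apply hs; rw [h]; ring
        have h1 := hcv z hz s t
        rw [← hys s t] at h1
        exact congrFun (smul_right_injective _ hs' h1) i
      rw [hpt, hcy]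
      have hnfx := hLINE D m hTR.td u hu z hz hz0 y hy hys s t hst
      refine hTR.res.off _ (yc_cone c₀ (hyY s t)) ?_
      intro hFX
      apply hnfx
      obtain ⟨τ, hτ1, hτ2, hFX⟩ := hFX
      refine ⟨τ, hτ1, hτ2, ?_⟩
      rcases hFX with h1 | h1
      · left
        rw [map_smul] at h1
        exact smul_right_injective _ hc₀ h1
      · right
        rw [map_smul, ← smul_neg] at h1
        exact smul_right_injective _ hc₀ h1

end Pool.Agent.Helper87.PG
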